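import Pool.Agent.Lib.MP_9d2e01_pr.Main

set_option autoImplicit false

open Pool.Agent.Lib.MP_9d2e01_pr in
/-- With independent uniform initial rotors on the square lattice, almost surely the rotor walk
started at the origin visits every site at arbitrarily late times. -/
theorem Pool.Agent.Results.MP_9d2e01_pr.Recurrent.result :
    ∀ᵐ ρ ∂(MeasureTheory.Measure.infinitePi
        (fun _ : ℤ × ℤ => ProbabilityTheory.uniformOn (Set.univ : Set (Fin 4)))),
      ∀ (x : ℤ × ℤ) (T : ℕ), ∃ t : ℕ, T ≤ t ∧ walk ρ t = x :=
  ae_allFin.mono fun _ h => h.recurrent
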